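import Mathlib

set_option autoImplicit false

namespace Pool.Agent.Results.MP_28dfab_co.EightElementCounterexample

/-- `S` is a `k`-antichain of `P`: a union of `k` pairwise disjoint antichains. -/
def IsKAntichain {P : Type} [PartialOrder P] (k : ℕ) (S : Set P) : Prop :=
  ∃ A : Fin k → Set P, (∀ i, IsAntichain (· ≤ ·) (A i)) ∧
    (∀ i j, i ≠ j → Disjoint (A i) (A j)) ∧ S = ⋃ i, A i

/-- `d_k(P)`: the largest size of a `k`-antichain of the (finite) poset `P`. -/
noncomputable def dNum (P : Type) [PartialOrder P] (k : ℕ) : ℕ :=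
  sSup {n : ℕ | ∃ S : Set P, IsKAntichain k S ∧ S.ncard = n}

/-- `h(P)`: the largest size of a chain of the (finite) poset `P`. -/
noncomputable def height (P : Type) [PartialOrder P] : ℕ :=
  sSup {n : ℕ | ∃ C : Set P, IsChain (· ≤ ·) C ∧ C.ncard = n}

/-- `P` is `d`-decomposable: there is a partition of `P` into antichains `A_1, …, A_h`,
`h` the height of `P`, with `|A_1 ∪ … ∪ A_k| = d_k(P)` for every `k = 1, …, h`
(the antichain `A_{i+1}` of the text is `A i` here). -/
def DDecomposable (P : Type) [PartialOrder P] : Prop :=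
  ∃ A : Fin (height P) → Set P, (∀ i, IsAntichain (· ≤ ·) (A i)) ∧
    (∀ i j, i ≠ j → Disjoint (A i) (A j)) ∧ (⋃ i, A i) = Set.univ ∧
    ∀ k : ℕ, 1 ≤ k → k ≤ height P →
      (⋃ i : {i : Fin (height P) // i.val < k}, A i.val).ncard = dNum P k

/-- The strict order of `P_6`, with `x_{i+1}` the element `Sum.inl i` and `y_{i+1}` the element
`Sum.inr i` (`i = 0, 1, 2`): the strict comparabilities are exactly `x_i < y_2` and `x_2 < y_i`,
`i = 1, 2, 3`. -/
def P6Lt : Fin 3 ⊕ Fin 3 → Fin 3 ⊕ Fin 3 → Prop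
  | Sum.inl i, Sum.inr j => i = 1 ∨ j = 1
  | _, _ => False

/-- `Q` contains `P_6` as an induced subposet. -/
def ContainsP6 (Q : Type) [PartialOrder Q] : Prop :=
  ∃ f : Fin 3 ⊕ Fin 3 → Q, Function.Injective f ∧ ∀ a b, f a < f b ↔ P6Lt a b

/-- The eight elements of the counterexample. -/
inductive Q8 : Type
  | e0 | e1 | e2 | e3 | e4 | e5 | e6 | e7
  deriving DecidableEq

instance : Fintype Q8 where
  elems := {Q8.e0, Q8.e1, Q8.e2, Q8.e3, Q8.e4, Q8.e5, Q8.e6, Q8.e7}
  complete := by intro x; cases x <;> decide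

/-- Its strict comparabilities: `0 < 4, 0 < 5, 0 < 6, 1 < 6, 1 < 7, 2 < 7, 3 < 7`. -/
def q8lt : Q8 → Q8 → Bool
  | Q8.e0, Q8.e4 => true
  | Q8.e0, Q8.e5 => true
  | Q8.e0, Q8.e6 => true
  | Q8.e1, Q8.e6 => true
  | Q8.e1, Q8.e7 => true
  | Q8.e2, Q8.e7 => true
  | Q8.e3, Q8.e7 => true
  | _, _ => false

instance : PartialOrder Q8 where
  le a b := a = b ∨ q8lt a b = true
  lt a b := q8lt a b = true
  le_refl a := Or.inl rfl
  le_trans := by decide
  lt_iff_le_not_ge := by decide
  le_antisymm := by decide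

theorem lt_def' (a b : Q8) : a < b ↔ q8lt a b = true := Iff.rfl

instance decLt : DecidableRel (fun a b : Q8 => a < b) := fun a b =>
  inferInstanceAs (Decidable (q8lt a b = true))

instance decLe : DecidableRel (fun a b : Q8 => a ≤ b) := fun a b =>
  inferInstanceAs (Decidable (a = b ∨ q8lt a b = true))

theorem no_chain3 : ∀ a b c : Q8, ¬ (q8lt a b = true ∧ q8lt b c = true) := by decide

theorem bip (S : Finset Q8) (h1 : ∀ a ∈ S, ∀ b ∈ S, q8lt a b = false)
    (h2 : ∀ a ∉ S, ∀ b ∉ S, q8lt a b = false) : S.card ≤ 4 := by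
  have step : ∀ a b : Q8, q8lt a b = true → (a ∈ S ↔ b ∉ S) := by
    intro a b hab
    constructor
    · intro ha hb
      exact absurd (h1 a ha b hb) (by rw [hab]; decide)
    · intro hb
      by_contra ha
      exact absurd (h2 a ha b hb) (by rw [hab]; decide)
  have s1 := step Q8.e0 Q8.e4 rfl
  have s2 := step Q8.e0 Q8.e5 rfl
  have s3 := step Q8.e0 Q8.e6 rfl
  have s4 := step Q8.e1 Q8.e6 rfl
  have s5 := step Q8.e1 Q8.e7 rfl
  have s6 := step Q8.e2 Q8.e7 rfl
  have s7 := step Q8.e3 Q8.e7 rfl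
  by_cases h : Q8.e0 ∈ S
  · have hS : S ⊆ {Q8.e0, Q8.e1, Q8.e2, Q8.e3} := by
      intro x hx
      cases x <;> first | decide | (exfalso; tauto)
    exact (Finset.card_le_card hS).trans (by decide)
  · have hS : S ⊆ {Q8.e4, Q8.e5, Q8.e6, Q8.e7} := by
      intro x hx
      cases x <;> first | decide | (exfalso; tauto)
    exact (Finset.card_le_card hS).trans (by decide)

theorem three_above : ∀ x a b c : Q8, a ≠ b → a ≠ c → b ≠ c → q8lt x a = true →
    q8lt x b = true → q8lt x c = true → x = Q8.e0 := by decide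

theorem three_below : ∀ x a b c : Q8, a ≠ b → a ≠ c → b ≠ c → q8lt a x = true →
    q8lt b x = true → q8lt c x = true → x = Q8.e7 := by decide

theorem no_p6 : ¬ ContainsP6 Q8 := by
  rintro ⟨f, hf, h⟩
  have hl : ∀ j, f (Sum.inl 1) < f (Sum.inr j) := fun j => (h _ _).2 (Or.inl rfl)
  have hr : ∀ i, f (Sum.inl i) < f (Sum.inr 1) := fun i => (h _ _).2 (Or.inr rfl)
  have h0 : f (Sum.inl 1) = Q8.e0 := by
    refine three_above _ (f (Sum.inr 0)) (f (Sum.inr 1)) (f (Sum.inr 2)) ?_ ?_ ?_
      (hl 0) (hl 1) (hl 2)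
    · intro e; exact absurd (hf e) (by decide)
    · intro e; exact absurd (hf e) (by decide)
    · intro e; exact absurd (hf e) (by decide)
  have h7 : f (Sum.inr 1) = Q8.e7 := by
    refine three_below _ (f (Sum.inl 0)) (f (Sum.inl 1)) (f (Sum.inl 2)) ?_ ?_ ?_
      (hr 0) (hr 1) (hr 2)
    · intro e; exact absurd (hf e) (by decide)
    · intro e; exact absurd (hf e) (by decide)
    · intro e; exact absurd (hf e) (by decide)
  have := hl 1
  rw [h0, h7] at this
  exact absurd this (by decide)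

theorem bdd (p : Set Q8 → Prop) : BddAbove {n : ℕ | ∃ S : Set Q8, p S ∧ S.ncard = n} := by
  refine ⟨Fintype.card Q8, ?_⟩
  rintro n ⟨S, -, rfl⟩
  rw [← Nat.card_eq_fintype_card, ← Set.ncard_univ]
  exact Set.ncard_le_ncard (Set.subset_univ S)

theorem chain_card (C : Set Q8) (hC : IsChain (· ≤ ·) C) : C.ncard ≤ 2 := by
  by_contra hlt
  push Not at hlt
  obtain ⟨a, b, c, ha, hb, hc, hab, hac, hbc⟩ := (Set.two_lt_ncard_iff (Set.toFinite C)).1 hlt
  have t : ∀ x ∈ C, ∀ y ∈ C, x ≠ y → (q8lt x y = true ∨ q8lt y x = true) := by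
    intro x hx y hy hxy
    rcases hC hx hy hxy with h | h
    · rcases h with h | h
      · exact absurd h hxy
      · exact Or.inl h
    · rcases h with h | h
      · exact absurd h.symm hxy
      · exact Or.inr h
  have key : ∀ a b c : Q8, (q8lt a b = true ∨ q8lt b a = true) →
      (q8lt a c = true ∨ q8lt c a = true) → (q8lt b c = true ∨ q8lt c b = true) → False := by
    decide
  exact key a b c (t a ha b hb hab) (t a ha c hc hac) (t b hb c hc hbc)

theorem height_eq : height Q8 = 2 := by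
  apply le_antisymm
  · apply csSup_le
    · exact ⟨0, ∅, by simp, by simp⟩
    · rintro n ⟨C, hC, rfl⟩
      exact chain_card C hC
  · apply le_csSup (bdd _)
    refine ⟨{Q8.e0, Q8.e4}, ?_, ?_⟩
    · intro x hx y hy hxy
      have : ∀ x y : Q8, (x = Q8.e0 ∨ x = Q8.e4) → (y = Q8.e0 ∨ y = Q8.e4) → x ≠ y →
        ((x = y ∨ q8lt x y = true) ∨ (y = x ∨ q8lt y x = true)) := by decide
      exact this x y hx hy hxy
    · exact Set.ncard_pair (by decide)

theorem d1_ge : 5 ≤ dNum Q8 1 := by
  apply le_csSup (bdd _)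
  refine ⟨(({Q8.e2, Q8.e3, Q8.e4, Q8.e5, Q8.e6} : Finset Q8) : Set Q8), ?_, ?_⟩
  · refine ⟨fun _ => (({Q8.e2, Q8.e3, Q8.e4, Q8.e5, Q8.e6} : Finset Q8) : Set Q8), ?_, ?_, ?_⟩
    · intro _ x hx y hy hxy hle
      have key : ∀ x ∈ ({Q8.e2, Q8.e3, Q8.e4, Q8.e5, Q8.e6} : Finset Q8),
          ∀ y ∈ ({Q8.e2, Q8.e3, Q8.e4, Q8.e5, Q8.e6} : Finset Q8), x ≠ y →
          ¬ (x = y ∨ q8lt x y = true) := by decide
      exact key x hx y hy hxy hle
    · intro i j hij
      exact absurd (Subsingleton.elim i j) hij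
    · exact (Set.iUnion_const _).symm
  · rw [Set.ncard_coe_finset]; decide

theorem not_dDecomposable : ¬ DDecomposable Q8 := by
  rintro ⟨A, hA, hdisj, hun, hk⟩
  have h2 := height_eq
  have hpos : 0 < height Q8 := by omega
  have h1 := hk 1 le_rfl (by omega)
  have e1 : (⋃ i : {i : Fin (height Q8) // i.val < 1}, A i.val) = A ⟨0, hpos⟩ := by
    ext x
    simp only [Set.mem_iUnion, Subtype.exists, exists_prop]
    constructor
    · rintro ⟨i, hi, hx⟩
      have : i = ⟨0, hpos⟩ := by
        apply Fin.ext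
        simp only
        omega
      rwa [this] at hx
    · intro hx
      exact ⟨⟨0, hpos⟩, by simp, hx⟩
  rw [e1] at h1
  have hcard : 5 ≤ (A ⟨0, hpos⟩).ncard := h1 ▸ d1_ge
  classical
  let S : Finset Q8 := Finset.univ.filter (fun x => x ∈ A ⟨0, hpos⟩)
  have hS : (S : Set Q8) = A ⟨0, hpos⟩ := by ext x; simp [S]
  have hScard : S.card = (A ⟨0, hpos⟩).ncard := by rw [← hS, Set.ncard_coe_finset]
  have hb := bip S ?_ ?_
  · omega
  · intro a ha b hb
    have ha' : a ∈ A ⟨0, hpos⟩ := by rw [← hS]; exact ha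
    have hb' : b ∈ A ⟨0, hpos⟩ := by rw [← hS]; exact hb
    by_contra hne
    have hlt : q8lt a b = true := by simpa using hne
    have hab : a ≠ b := by
      rintro rfl
      have : ∀ a : Q8, q8lt a a = false := by decide
      rw [this] at hlt
      exact absurd hlt (by decide)
    exact hA _ ha' hb' hab (Or.inr hlt)
  · intro a ha b hb
    have ha' : a ∉ A ⟨0, hpos⟩ := by rw [← hS]; exact ha
    have hb' : b ∉ A ⟨0, hpos⟩ := by rw [← hS]; exact hb
    have hp1 : 1 < height Q8 := by omega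
    have other : ∀ x, x ∉ A ⟨0, hpos⟩ → x ∈ A ⟨1, hp1⟩ := by
      intro x hx
      have : x ∈ (⋃ i, A i) := by rw [hun]; trivial
      rw [Set.mem_iUnion] at this
      obtain ⟨i, hi⟩ := this
      have hi2 : i.val = 0 ∨ i.val = 1 := by have := i.isLt; omega
      rcases hi2 with h | h
      · have : i = ⟨0, hpos⟩ := Fin.ext h
        rw [this] at hi
        exact absurd hi hx
      · have : i = ⟨1, hp1⟩ := Fin.ext h
        rwa [this] at hi
    by_contra hne
    have hlt : q8lt a b = true := by simpa using hne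
    have hab : a ≠ b := by
      rintro rfl
      have : ∀ a : Q8, q8lt a a = false := by decide
      rw [this] at hlt
      exact absurd hlt (by decide)
    exact hA _ (other a ha') (other b hb') hab (Or.inr hlt)

/-- There is a poset with eight elements that contains no induced copy of `P_6` and is not
`d`-decomposable. -/
theorem result : ∃ (P : Type) (_ : PartialOrder P), Nat.card P = 8 ∧ ¬ ContainsP6 P ∧
    ¬ DDecomposable P :=
  ⟨Q8, inferInstance, by rw [Nat.card_eq_fintype_card]; decide, no_p6, not_dDecomposable⟩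

end Pool.Agent.Results.MP_28dfab_co.EightElementCounterexample
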